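import Mathlib
import Pool.Agent.H73.FoundationOneAux

/-!
# MP_832176_co, Q2: the minimum foundation of `N`-legged trades

For every `t` there is a constant `C` such that for all `N ≥ 2` and `k > t` the minimum foundation
size `f` of an `N`-legged `(t,k)` trade satisfies `E / C ≤ f - k ≤ C * E`, where, with
`L = log₂ N`, `E = k * N ^ (1 / (k - t))` if `k < 2 * L` and `E = 1 + L / log₂ (k / L)` if
`2 * L ≤ k`; it is exactly `k + t + 1` if `(N - 1)(t + 1) ≤ k`. For `t = 1` it is found exactly in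
many more cases, among them all `N` up to about `k ^ 2 / 2`, and all `N` if `k = 2`.
-/

set_option autoImplicit false

namespace Pool.Agent.Results.MP_832176_co.FoundationOrder

open Finset

/-- `T = (T 0, …, T (N-1))` is an `N`-legged `(t,k)` trade on the finite set `X`: each leg is a
nonempty finite multiset of `k`-subsets of `X`, two different legs have no block in common, and
every `t`-subset of `X` lies in the same number of blocks (with multiplicity) of each leg. -/
def IsTrade (N t k : ℕ) {X : Type} [DecidableEq X] (T : Fin N → Multiset (Finset X)) : Prop :=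
  (∀ i, T i ≠ 0) ∧
  (∀ i, ∀ B ∈ T i, B.card = k) ∧
  (∀ i j, i ≠ j → ∀ B ∈ T i, B ∉ T j) ∧
  (∀ i j, ∀ S : Finset X, S.card = t →
    (T i).countP (fun B => S ⊆ B) = (T j).countP (fun B => S ⊆ B))

/-- The foundation of a trade: the points which lie in some block. -/
noncomputable def foundation {N : ℕ} {X : Type} [Fintype X] [DecidableEq X]
    (T : Fin N → Multiset (Finset X)) : Finset X :=
  @Finset.filter X (fun x => ∃ i, ∃ B ∈ T i, x ∈ B) (Classical.decPred _) Finset.univ

/-- The foundation sizes of all `N`-legged `(t,k)` trades on all finite sets. -/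
def FoundationSizes (N t k : ℕ) : Set ℕ :=
  {f | ∃ (X : Type) (_ : Fintype X) (_ : DecidableEq X) (T : Fin N → Multiset (Finset X)),
    IsTrade N t k T ∧ (foundation T).card = f}

/-- The order of magnitude of the excess `f - k` of the minimum foundation size `f`: with
`L = log₂ N` it is `k * N ^ (1 / (k - t))` if `k < 2 L`, and `1 + L / log₂ (k / L)` if
`2 L ≤ k`. -/
noncomputable def excess (N t k : ℕ) : ℝ :=
  if (k : ℝ) < 2 * Real.logb 2 N then (k : ℝ) * (N : ℝ) ^ (1 / ((k : ℝ) - t))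
  else 1 + Real.logb 2 N / Real.logb 2 (k / Real.logb 2 N)

/-- **Main theorem.** For every `t`:
* if `(N - 1)(t + 1) ≤ k`, the minimum foundation size of an `N`-legged `(t,k)` trade is exactly
  `k + t + 1`;
* every foundation size `f` satisfies `k + t + 1 ≤ f`, `N ≤ C(f - t, k)`, `N ≤ C(f - t, k - t)`;
* there is a constant `C` (depending on `t` only) such that for all `N ≥ 2` and `k > t` the
  minimum foundation size `f` satisfies `excess N t k / C ≤ f - k ≤ C * excess N t k`.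

For `t = 1`, `N ≥ 2` and `k ≥ 2` the minimum foundation size is exactly
* `k + m`, if `N ≤ C(m (⌊k/m⌋ + 1) - 1, m - 1)`, and `C(k + m - 1, k) < c N` for some `c` with
  `(c - 1)(m - 1) < k + m - 1` (`m ≥ 1`; the best choice is `c = ⌈(k + m - 1) / (m - 1)⌉`);
* in particular `k + 2` if `N ≤ 2 ⌊k/2⌋ + 1`,
* and `k + 3` if `2 ⌊k/2⌋ + 1 < N ≤ C(3 ⌊k/3⌋ + 2, 2)`;
* `j k`, if `C(j k - 1, k) < j N` and `N ≤ C(j k - 1, k - 1)` (`j ≥ 2`);
* `2 ⌊(N + 2) / 2⌋`, for all `N`, if `k = 2`. -/
theorem result :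
    (∀ t : ℕ,
      (∀ N k : ℕ, 2 ≤ N → t < k → (N - 1) * (t + 1) ≤ k →
        IsLeast (FoundationSizes N t k) (k + t + 1)) ∧
      (∀ N k f : ℕ, 2 ≤ N → t < k → f ∈ FoundationSizes N t k →
        k + t + 1 ≤ f ∧ N ≤ (f - t).choose k ∧ N ≤ (f - t).choose (k - t)) ∧
      (∃ C : ℝ, 0 < C ∧ ∀ N k : ℕ, 2 ≤ N → t < k →
        ∃ f : ℕ, IsLeast (FoundationSizes N t k) f ∧
          excess N t k ≤ C * ((f : ℝ) - k) ∧ (f : ℝ) - k ≤ C * excess N t k)) ∧
    (∀ N k m c : ℕ, 2 ≤ N → 2 ≤ k → 1 ≤ m → (c - 1) * (m - 1) < k + m - 1 →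
      (k + m - 1).choose k < c * N → N ≤ (m * (k / m + 1) - 1).choose (m - 1) →
      IsLeast (FoundationSizes N 1 k) (k + m)) ∧
    (∀ N k : ℕ, 2 ≤ N → 2 ≤ k → N ≤ 2 * (k / 2) + 1 →
      IsLeast (FoundationSizes N 1 k) (k + 2)) ∧
    (∀ N k : ℕ, 2 ≤ k → 2 * (k / 2) + 1 < N → N ≤ (3 * (k / 3) + 2).choose 2 →
      IsLeast (FoundationSizes N 1 k) (k + 3)) ∧
    (∀ N k j : ℕ, 2 ≤ N → 2 ≤ k → 2 ≤ j → (j * k - 1).choose k < j * N →
      N ≤ (j * k - 1).choose (k - 1) → IsLeast (FoundationSizes N 1 k) (j * k)) ∧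
    (∀ N : ℕ, 2 ≤ N → IsLeast (FoundationSizes N 1 2) (2 * ((N + 2) / 2))) :=
  H73.FoundationOneAux.main'

end Pool.Agent.Results.MP_832176_co.FoundationOrder
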