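import Mathlib
import Pool.Agent.H73.VolumeGrowthAux

/-!
# MP_832176_co, Q1: the minimum volume of `N`-legged trades for all `t`

General lower bounds for all `N, t, k` (a bound of Rao type and a bound of design type), matching
constructions from BCH codes (large `k`) and projected Reed-Solomon codes (all `k`).  For
`t = 2, 3`: the exact minimum volume `2 ^ (s + t - 2)` for large `k` and
`2 ^ (2 ^ s - 2) / (2 ^ s - 1) < N ≤ 2 ^ (2 ^ s - 1 - s)`; the asymptotic value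
`2 ^ (t - 2) * log₂ N` for `k ≥ (1 / 2 + ε) log₂ N` (from permuted Hadamard designs), and a larger
lower bound for `k ≤ (1 / 2 - ε) log₂ N`.
-/

set_option autoImplicit false

namespace Pool.Agent.Results.MP_832176_co.VolumeGrowth

open Finset

/-- `T = (T 0, …, T (N-1))` is an `N`-legged `(t,k)` trade on the finite set `X`: each leg is a
nonempty finite multiset of `k`-subsets of `X`, two different legs have no block in common, and
every `t`-subset of `X` lies in the same number of blocks (with multiplicity) of each leg. -/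
def IsTrade (N t k : ℕ) {X : Type} [DecidableEq X] (T : Fin N → Multiset (Finset X)) : Prop :=
  (∀ i, T i ≠ 0) ∧
  (∀ i, ∀ B ∈ T i, B.card = k) ∧
  (∀ i j, i ≠ j → ∀ B ∈ T i, B ∉ T j) ∧
  (∀ i j, ∀ S : Finset X, S.card = t →
    (T i).countP (fun B => S ⊆ B) = (T j).countP (fun B => S ⊆ B))

/-- The volumes of all `N`-legged `(t,k)` trades on all finite sets: the numbers `m` such that in
some such trade every leg has exactly `m` blocks (with multiplicity). -/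
def Volumes (N t k : ℕ) : Set ℕ :=
  {m | ∃ (X : Type) (_ : Fintype X) (_ : DecidableEq X) (T : Fin N → Multiset (Finset X)),
    IsTrade N t k T ∧ ∀ i, Multiset.card (T i) = m}

/-- the number of nonnegative integers `x < n` with at most `e` ones in binary -/
def lowWeight (n e : ℕ) : ℕ := ((range n).filter (fun x => x.bitIndices.length ≤ e)).card

/-- **Main theorem.**
(1) Lower bounds for all `N ≥ 2`, `t < k`, also in terms of binomial coefficients.
(2) The order of magnitude: for every `t` there is `C` such that for all `N ≥ 2`, `k > t` the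
minimum volume `m` satisfies, with `q = N ^ (1 / (k - t))` and `L = log₂ N`,
`max (q ^ t) (L ^ ⌊t/2⌋) ≤ C m`, `m ≤ C q max(q,k) ^ (t-1)`, and `m ≤ C L ^ ⌊t/2⌋` if `k ≥ C L`.
(3) The exact minimum volume for `t = 2, 3`, infinitely many ranges of `N`, and large `k`.
(4) The asymptotic value `2 ^ (t - 2) * log₂ N` for `t = 2, 3` and `k ≥ (1 / 2 + ε) log₂ N`.
(5) The minimum is larger by a factor `1 + ε ^ 2 / 2` if `t = 2, 3` and
`k ≤ (1 / 2 - ε) log₂ N`. -/
theorem result :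
    (∀ N t k m e : ℕ, 2 ≤ N → t < k → 2 * e ≤ t → m ∈ Volumes N t k →
      (∃ ρ, 1 ≤ ρ ∧ lowWeight (N * ρ) e ≤ ρ ∧ 2 ^ (t - 2 * e) * ρ ≤ m) ∧
      2 ^ (t - 2 * e) * ∑ i ∈ range (e + 1), (Nat.log 2 N).choose i ≤ m) ∧
    (∀ t : ℕ, ∃ C : ℝ, 0 < C ∧ ∀ N k : ℕ, 2 ≤ N → t < k →
      ∃ m : ℕ, IsLeast (Volumes N t k) m ∧
        max (((N : ℝ) ^ (1 / ((k : ℝ) - t))) ^ t) (Real.logb 2 N ^ (t / 2)) ≤ C * m ∧
        (1 ≤ t → (m : ℝ) ≤ C * ((N : ℝ) ^ (1 / ((k : ℝ) - t)) *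
          max ((N : ℝ) ^ (1 / ((k : ℝ) - t))) k ^ (t - 1))) ∧
        (C * Real.logb 2 N ≤ k → (m : ℝ) ≤ C * Real.logb 2 N ^ (t / 2))) ∧
    (∀ N t k s : ℕ, 2 ≤ s → (t = 2 ∨ t = 3) → 2 ^ s + t ≤ k + 3 →
      2 ^ (2 ^ s - 2) < (2 ^ s - 1) * N → N ≤ 2 ^ (2 ^ s - 1 - s) →
      IsLeast (Volumes N t k) (2 ^ (s + t - 2))) ∧
    (∀ ε : ℝ, 0 < ε → ∃ N₀ : ℕ, ∀ N t k : ℕ, N₀ ≤ N → (t = 2 ∨ t = 3) →
      (1 / 2 + ε) * Real.logb 2 N ≤ k → ∃ m : ℕ, IsLeast (Volumes N t k) m ∧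
        2 ^ (t - 2) * Real.logb 2 N ≤ m ∧
        (m : ℝ) ≤ (1 + ε) * (2 ^ (t - 2) * Real.logb 2 N)) ∧
    (∀ ε : ℝ, 0 < ε → ε < 1 / 2 → ∀ N t k m : ℕ, 2 ≤ N → (t = 2 ∨ t = 3) → t < k →
      (k : ℝ) ≤ (1 / 2 - ε) * Real.logb 2 N → m ∈ Volumes N t k →
      (1 + ε ^ 2 / 2) * (2 ^ (t - 2) * Real.logb 2 N) ≤ m) :=
  H73.VolumeGrowthAux.main

end Pool.Agent.Results.MP_832176_co.VolumeGrowth
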