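import Mathlib
import Pool.Agent.H73.Baranyai

/-!
# MP_832176_co, Q1 for `t = 1`: the volumes of `N`-legged trades

For `N ≥ 2` and `k ≥ 2` there is a `T[N](1,k,v)` trade of volume `m` (for some `v`) if and only if
`N ≤ C(mk - 1, k - 1)`.  So the minimum volume is the least `m` with `C(mk - 1, k - 1) ≥ N`.
-/

set_option autoImplicit false

namespace Pool.Agent.Results.MP_832176_co.VolumeStrengthOne

open Finset

/-- `T = (T 0, …, T (N-1))` is an `N`-legged `(t,k)` trade on the finite set `X`: each leg is a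
nonempty finite multiset of `k`-subsets of `X`, two different legs have no block in common, and
every `t`-subset of `X` lies in the same number of blocks (with multiplicity) of each leg. -/
def IsTrade (N t k : ℕ) {X : Type} [DecidableEq X] (T : Fin N → Multiset (Finset X)) : Prop :=
  (∀ i, T i ≠ 0) ∧
  (∀ i, ∀ B ∈ T i, B.card = k) ∧
  (∀ i j, i ≠ j → ∀ B ∈ T i, B ∉ T j) ∧
  (∀ i j, ∀ S : Finset X, S.card = t →
    (T i).countP (fun B => S ⊆ B) = (T j).countP (fun B => S ⊆ B))

/-- The volumes of all `N`-legged `(t,k)` trades on all finite sets: the numbers `m` such that in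
some such trade every leg has exactly `m` blocks (with multiplicity). -/
def Volumes (N t k : ℕ) : Set ℕ :=
  {m | ∃ (X : Type) (_ : Fintype X) (_ : DecidableEq X) (T : Fin N → Multiset (Finset X)),
    IsTrade N t k T ∧ ∀ i, Multiset.card (T i) = m}

lemma card_cover {X : Type} [Fintype X] [DecidableEq X] (M : Multiset (Finset X)) (k : ℕ)
    (hk : ∀ B ∈ M, B.card = k) (F : Finset X) (hF : ∀ x ∈ F, ∃ B ∈ M, x ∈ B) :
    F.card ≤ Multiset.card M * k := by
  induction M using Multiset.induction generalizing F with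
  | empty =>
    have : F = ∅ := by
      rw [eq_empty_iff_forall_notMem]
      intro x hx
      obtain ⟨B, hB, -⟩ := hF x hx
      simp at hB
    subst this; simp
  | cons B M ih =>
    have hB : B.card = k := hk B (Multiset.mem_cons_self B M)
    have h1 := ih (fun C hC => hk C (Multiset.mem_cons_of_mem hC)) (F \ B) (by
      intro x hx
      obtain ⟨hxF, hxB⟩ := mem_sdiff.1 hx
      obtain ⟨C, hC, hxC⟩ := hF x hxF
      rcases Multiset.mem_cons.1 hC with rfl | hC'
      · exact absurd hxC hxB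
      · exact ⟨C, hC', hxC⟩)
    have h2 : F.card ≤ (F \ B).card + B.card := by
      have := card_le_card (show F ⊆ (F \ B) ∪ B from fun x hx => by
        by_cases h : x ∈ B
        · exact mem_union_right _ h
        · exact mem_union_left _ (mem_sdiff.2 ⟨hx, h⟩))
      exact this.trans (card_union_le _ _)
    rw [Multiset.card_cons, add_mul, one_mul]
    omega

lemma necessary {N k m : ℕ} (hN : 2 ≤ N) (hk : 2 ≤ k) (hm : m ∈ Volumes N 1 k) :
    N ≤ (m * k - 1).choose (k - 1) := by
  obtain ⟨X, i1, i2, T, hT, hcard⟩ := hm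
  set i₀ : Fin N := ⟨0, by omega⟩ with hi₀
  obtain ⟨B₀, hB₀⟩ := Multiset.exists_mem_of_ne_zero (hT.1 i₀)
  have hB₀c := hT.2.1 _ B₀ hB₀
  obtain ⟨x, hx⟩ : B₀.Nonempty := card_pos.1 (by omega)
  -- the points covered by the first leg
  set F : Finset X := univ.filter (fun y => 0 < (T i₀).countP (fun B => {y} ⊆ B)) with hF
  have hmem : ∀ (j : Fin N) (y : X), (∃ B ∈ T j, y ∈ B) → y ∈ F := by
    rintro j y ⟨B, hB, hy⟩
    rw [hF, mem_filter]
    refine ⟨mem_univ _, ?_⟩
    rw [hT.2.2.2 i₀ j {y} (card_singleton y)]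
    exact Multiset.countP_pos.2 ⟨B, hB, singleton_subset_iff.2 hy⟩
  have hFcard : F.card ≤ m * k := by
    rw [← hcard i₀]
    apply card_cover (T i₀) k (hT.2.1 i₀) F
    intro y hy
    rw [hF, mem_filter] at hy
    obtain ⟨B, hB, hyB⟩ := Multiset.countP_pos.1 hy.2
    exact ⟨B, hB, singleton_subset_iff.1 hyB⟩
  have hex : ∀ j : Fin N, ∃ B ∈ T j, x ∈ B := by
    intro j
    have h1 : 0 < (T i₀).countP (fun B => {x} ⊆ B) :=
      Multiset.countP_pos.2 ⟨B₀, hB₀, singleton_subset_iff.2 hx⟩
    rw [hT.2.2.2 i₀ j {x} (card_singleton x)] at h1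
    obtain ⟨B, hB, hxB⟩ := Multiset.countP_pos.1 h1
    exact ⟨B, hB, singleton_subset_iff.1 hxB⟩
  choose f hf hfx using hex
  have hxF : x ∈ F := hmem i₀ x ⟨B₀, hB₀, hx⟩
  have hmap : ∀ j ∈ (univ : Finset (Fin N)), (f j).erase x ∈ powersetCard (k - 1) (F.erase x) := by
    intro j _
    rw [mem_powersetCard]
    refine ⟨?_, by rw [card_erase_of_mem (hfx j), hT.2.1 j _ (hf j)]⟩
    intro y hy
    rw [mem_erase] at hy ⊢
    exact ⟨hy.1, hmem j y ⟨f j, hf j, hy.2⟩⟩
  have hinj : Set.InjOn (fun j => (f j).erase x) (univ : Finset (Fin N)) := by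
    intro i _ j _ hij
    have hij' : (f i).erase x = (f j).erase x := hij
    have : f i = f j := by
      rw [← insert_erase (hfx i), ← insert_erase (hfx j), hij']
    by_contra hne
    exact hT.2.2.1 i j hne (f i) (hf i) (this ▸ hf j)
  have h := card_le_card_of_injOn _ hmap hinj
  rw [card_powersetCard, card_erase_of_mem hxF] at h
  calc N = (univ : Finset (Fin N)).card := by simp
    _ ≤ (F.card - 1).choose (k - 1) := h
    _ ≤ (m * k - 1).choose (k - 1) := Nat.choose_le_choose _ (by omega)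

lemma sufficient {N k m : ℕ} (hN : 2 ≤ N) (hk : 2 ≤ k)
    (h : N ≤ (m * k - 1).choose (k - 1)) : m ∈ Volumes N 1 k := by
  have hm : 1 ≤ m := by
    by_contra hcon
    have h0 : m = 0 := by omega
    subst h0
    rw [Nat.zero_mul, Nat.choose_eq_zero_of_lt (by omega)] at h
    omega
  obtain ⟨A, hA1, hA2, hA3, hA4⟩ := Pool.Agent.H73.Baranyai.baranyai m k (by omega) hm
  refine ⟨Fin (m * k), inferInstance, inferInstance, fun i => A (Fin.castLE h i),
    ⟨?_, ?_, ?_, ?_⟩, fun i => hA1 _⟩
  · intro i h0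
    have h0' : A (Fin.castLE h i) = 0 := h0
    have := hA1 (Fin.castLE h i)
    rw [h0', Multiset.card_zero] at this
    omega
  · intro i B hB
    exact hA2 _ B hB
  · intro i j hij B hB
    exact hA4 _ _ (fun he => hij (Fin.castLE_injective h he)) B hB
  · intro i j S hS
    obtain ⟨x, rfl⟩ := card_eq_one.1 hS
    simp only [singleton_subset_iff]
    rw [hA3, hA3]

/-- **Volumes of `N`-legged trades of strength one.**  For all `N ≥ 2` and `k ≥ 2` an `N`-legged
`(1,k)` trade of volume `m` exists if and only if `N ≤ C(mk - 1, k - 1)`; in particular the minimum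
volume is the least such `m`. -/
theorem result (N k : ℕ) (hN : 2 ≤ N) (hk : 2 ≤ k) :
    Volumes N 1 k = {m | N ≤ (m * k - 1).choose (k - 1)} ∧
    (Volumes N 1 k).Nonempty ∧
    IsLeast (Volumes N 1 k) (sInf {m | N ≤ (m * k - 1).choose (k - 1)}) := by
  have h1 : Volumes N 1 k = {m | N ≤ (m * k - 1).choose (k - 1)} := by
    ext m
    exact ⟨fun hm => necessary hN hk hm, fun hm => sufficient hN hk hm⟩
  have h2 : (Volumes N 1 k).Nonempty := by
    rw [h1]
    refine ⟨N, ?_⟩
    change N ≤ (N * k - 1).choose (k - 1)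
    obtain ⟨b, rfl⟩ : ∃ b, N = b + 1 := ⟨N - 1, by omega⟩
    obtain ⟨j, rfl⟩ : ∃ j, k = j + 1 := ⟨k - 1, by omega⟩
    simp only [Nat.add_sub_cancel]
    have h3 : j + b ≤ (b + 1) * (j + 1) - 1 := by
      have : (b + 1) * (j + 1) = b * j + b + j + 1 := by ring
      omega
    calc b + 1 = (1 + b).choose b := by
          rw [add_comm 1 b, Nat.choose_succ_self_right]
      _ ≤ (j + b).choose b := Nat.choose_le_choose _ (by omega)
      _ = (j + b).choose j := by
          rw [← Nat.choose_symm_add]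
      _ ≤ ((b + 1) * (j + 1) - 1).choose j := Nat.choose_le_choose _ h3
  refine ⟨h1, h2, ?_, ?_⟩
  · rw [h1] at h2 ⊢
    exact Nat.sInf_mem h2
  · intro m hm
    rw [h1] at hm
    exact Nat.sInf_le hm

end Pool.Agent.Results.MP_832176_co.VolumeStrengthOne
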