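import Mathlib
import Pool.Agent.H73.VolumeStrengthTwoAux

/-!
# MP_832176_co, Q1 for `t = 2`: the minimum volume up to an absolute constant factor

For all `N ≥ 2` and `k ≥ 3` the minimum volume of an `N`-legged `(2,k)` trade is between
`scale N k / 81` and `400 * scale N k`, where `scale N k` is the maximum of `N ^ (2 / (k - 2))`
and of `k * N ^ (1 / k)` (if `2 ^ k ≤ N`) or `log₂ N` (if `N < 2 ^ k`).
-/

set_option autoImplicit false

namespace Pool.Agent.Results.MP_832176_co.VolumeStrengthTwo

open Finset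

/-- `T = (T 0, …, T (N-1))` is an `N`-legged `(t,k)` trade on the finite set `X`: each leg is a
nonempty finite multiset of `k`-subsets of `X`, two different legs have no block in common, and
every `t`-subset of `X` lies in the same number of blocks (with multiplicity) of each leg. -/
def IsTrade (N t k : ℕ) {X : Type} [DecidableEq X] (T : Fin N → Multiset (Finset X)) : Prop :=
  (∀ i, T i ≠ 0) ∧
  (∀ i, ∀ B ∈ T i, B.card = k) ∧
  (∀ i j, i ≠ j → ∀ B ∈ T i, B ∉ T j) ∧
  (∀ i j, ∀ S : Finset X, S.card = t →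
    (T i).countP (fun B => S ⊆ B) = (T j).countP (fun B => S ⊆ B))

/-- The volumes of all `N`-legged `(t,k)` trades on all finite sets: the numbers `m` such that in
some such trade every leg has exactly `m` blocks (with multiplicity). -/
def Volumes (N t k : ℕ) : Set ℕ :=
  {m | ∃ (X : Type) (_ : Fintype X) (_ : DecidableEq X) (T : Fin N → Multiset (Finset X)),
    IsTrade N t k T ∧ ∀ i, Multiset.card (T i) = m}

/-- The order of magnitude of the minimum volume: the maximum of `N ^ (2 / (k - 2))` and of
`k * N ^ (1 / k)` if `2 ^ k ≤ N`, of `log₂ N` if `N < 2 ^ k`. -/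
noncomputable def scale (N k : ℕ) : ℝ :=
  max ((N : ℝ) ^ ((2 : ℝ) / ((k : ℝ) - 2)))
    (if 2 ^ k ≤ N then (k : ℝ) * (N : ℝ) ^ (1 / (k : ℝ)) else Real.logb 2 N)

/-- **Main theorem.** For `t = 2` the minimum volume of an `N`-legged `(2,k)` trade is
determined up to an absolute constant factor, for all `N ≥ 2` and all `k ≥ 3`. -/
theorem result (N k : ℕ) (hN : 2 ≤ N) (hk : 3 ≤ k) :
    ∃ m : ℕ, IsLeast (Volumes N 2 k) m ∧ scale N k ≤ 81 * m ∧ (m : ℝ) ≤ 400 * scale N k :=
  H73.VolumeStrengthTwoAux.main N k hN hk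

end Pool.Agent.Results.MP_832176_co.VolumeStrengthTwo
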